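import Pool.Agent.MP_5f72fe_nt.MS.Cnt

/-! Weak Goldfeld for all holomorphic Hecke eigenforms whose level is a power of `3`. -/

namespace Pool.Agent.Results.MP_5f72fe_nt.PowersOfThree

open Filter Pool.Agent.MP_5f72fe_nt
open scoped UpperHalfPlane NumberTheorySymbols

/-- the Fourier coefficient `a(n)` in `f(z) = ∑ a(n) exp(2 π i n z)` -/
noncomputable def coeff (f : ℍ → ℂ) (n : ℕ) : ℂ := (UpperHalfPlane.qExpansion 1 f).coeff n

/-- the coefficients of an eigenfunction of the Hecke operators `T_p`, `p ≠ 3`, in weight `2 k` -/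
def IsEigen (k : ℕ) (a : ℕ → ℂ) : Prop :=
  ∀ p : ℕ, p.Prime → p ≠ 3 → ∃ l : ℂ, ∀ n : ℕ, 1 ≤ n →
    a (p * n) + p ^ (2 * k - 1) * (if p ∣ n then a (n / p) else 0) = l * a n

/-- the entire continuation of `∑ a(n) χ_D(n) n^(-s)`, `n` prime to `3`, does not vanish at the
centre `s = k`; for an odd fundamental discriminant `D`, `χ_D(n)` is the Jacobi symbol
`(n / |D|)` -/
def CentralNe (k : ℕ) (a : ℕ → ℂ) (D : ℤ) : Prop :=
  ∃ L : ℂ → ℂ, Differentiable ℂ L ∧
    (∀ s : ℂ, k + 1 < s.re →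
      LSeriesHasSum (fun n => (if 3 ∣ n then 0 else a n) * J(n | D.natAbs)) s (L s)) ∧ L k ≠ 0

theorem count (x c : ℝ) (hx : 28 ≤ x) (G : Finset ℕ) (hG : ∀ n ∈ G, n ≤ ⌊2 * x / 7⌋₊)
    (hc : c ≤ G.card) (D : ℕ → ℤ) (hi : Function.Injective D) (P : ℤ → Prop)
    (hD : ∀ n ∈ G, |D n| ≤ 3 * n ∧ P (D n)) : c ≤ Set.ncard {D : ℤ | |(D : ℝ)| < x ∧ P D} := by
  classical
  have h1 : (⌊2 * x / 7⌋₊ : ℝ) ≤ 2 * x / 7 := Nat.floor_le (by linarith)
  refine hc.trans ?_
  rw [← Finset.card_image_of_injective G hi, ← Set.ncard_coe_finset]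
  refine Nat.cast_le.2 (Set.ncard_le_ncard (fun d hd => ?_) ?_)
  · obtain ⟨n, hn, rfl⟩ := Finset.mem_image.1 (Finset.mem_coe.1 hd)
    refine ⟨?_, (hD n hn).2⟩
    have h2 : (n : ℝ) ≤ ⌊2 * x / 7⌋₊ := by exact_mod_cast hG n hn
    have h3 : |(D n : ℝ)| ≤ 3 * n := by exact_mod_cast (hD n hn).1
    linarith
  · refine (Set.finite_Icc (-⌈x⌉) ⌈x⌉).subset fun d hd => ?_
    have := abs_lt.1 (hd.1.trans_le (Int.le_ceil x))
    exact ⟨by exact_mod_cast this.1.le, by exact_mod_cast this.2.le⟩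

theorem sq3 {n : ℕ} (h : Squarefree n) (h3 : ¬ 3 ∣ n) : Squarefree (3 * n) :=
  (Nat.squarefree_mul ((Nat.Prime.coprime_iff_not_dvd Nat.prime_three).2 h3)).2
    ⟨Nat.prime_three.squarefree, h⟩

theorem result : ∀ᶠ x : ℝ in atTop, ∀ (r k : ℕ), 1 ≤ k →
    ∀ f : CuspForm (CongruenceSubgroup.Gamma0 (3 ^ r)) (2 * k : ℕ), coeff f 1 ≠ 0 →
      IsEigen k (coeff f) → x / 2000 ≤ Set.ncard
        {D : ℤ | |(D : ℝ)| < x ∧ D ≠ 1 ∧ D % 4 = 1 ∧ Squarefree D ∧ CentralNe k (coeff f) D} := by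
  classical
  have ht : Tendsto (fun x : ℝ => ⌊2 * x / 7⌋₊) atTop atTop :=
    tendsto_nat_floor_atTop.comp
      ((tendsto_id.const_mul_atTop (by norm_num)).atTop_div_const (by norm_num))
  filter_upwards [ht.eventually MS.allCNTB.1, ht.eventually MS.allCNTB.2,
    eventually_ge_atTop 28] with x c7 c5 hx r k hk f h1 hf
  have h2 : 2 * x / 7 < ⌊2 * x / 7⌋₊ + 1 := Nat.lt_floor_add_one _
  have h3 : (0 : ℝ) ≤ ⌊2 * x / 7⌋₊ := Nat.cast_nonneg _
  have d7 := (show x / 2000 ≤ 1 / 250 * (⌊2 * x / 7⌋₊ : ℝ) by linarith).trans c7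
  have d5 := (show x / 2000 ≤ 1 / 500 * (⌊2 * x / 7⌋₊ : ℝ) by linarith).trans c5
  have le : ∀ (P : ℕ → Prop) [DecidablePred P],
      ∀ n ∈ (Finset.range (⌊2 * x / 7⌋₊ + 1)).filter P, n ≤ ⌊2 * x / 7⌋₊ := fun P _ n hn =>
    Nat.le_of_lt_succ (Finset.mem_range.1 (Finset.mem_filter.1 hn).1)
  rcases MS.allFOUR r k f hk (fun e => h1 (congrFun e 1)) (fun l hl => hf l
    (by rcases hl with rfl | rfl <;> norm_num) (by omega)) with h | h | h | h
  · refine count x _ hx _ (le _) d7 (fun n => -n) (fun n m e => by simpa using e) _ fun n hn => ?_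
    have g := (Finset.mem_filter.1 hn).2
    have := g.1
    exact ⟨by rw [abs_le]; omega, by omega, by omega,
      by rw [← Int.squarefree_natAbs]; simpa using g.2.1, by
      rw [CentralNe, Int.natAbs_neg]
      exact h n g⟩
  · refine count x _ hx _ (le _) d5 (fun n => n) (fun n m e => by simpa using e) _ fun n hn => ?_
    have g := (Finset.mem_filter.1 hn).2
    have := g.1
    exact ⟨by rw [abs_le]; omega, by omega, by omega,
      by rw [← Int.squarefree_natAbs]; simpa using g.2.1, h n g⟩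
  · refine count x _ hx _ (le _) d7 (fun n => (3 * n : ℕ)) (fun n m e => by simpa using e) _
      fun n hn => ?_
    have g := (Finset.mem_filter.1 hn).2
    have := g.1
    exact ⟨by rw [abs_le]; omega, by omega, by omega,
      Int.squarefree_natCast.2 (sq3 g.2.1 (by omega)), h n g⟩
  · refine count x _ hx _ (le _) d5 (fun n => -(3 * n : ℕ)) (fun n m e => by simpa using e) _
      fun n hn => ?_
    have g := (Finset.mem_filter.1 hn).2
    have := g.1
    exact ⟨by rw [abs_le]; omega, by omega, by omega,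
      by rw [← Int.squarefree_natAbs, Int.natAbs_neg]; exact sq3 g.2.1 (by omega), by
      rw [CentralNe, Int.natAbs_neg]
      exact h n g⟩

end Pool.Agent.Results.MP_5f72fe_nt.PowersOfThree
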